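import Mathlib
import Pool.Agent.X46.SidExp

/-!
# Linear bounds on Sidorenko exponents of bounded-degree hypergraphs

We prove the statement of the problem: for every `r ≥ 2` there is a function `f` such that every
`r`-partite `r`-graph `F` of maximum degree at most `Δ` satisfies `s(F) ≤ f(Δ) e(F)`.
-/

namespace Pool.Agent.Results.MP_30cdc8_co.LinearExponent

open Pool.Agent.X46.SidF Pool.Agent.X46.SidE

/-- **Linear bounds on Sidorenko exponents.** For every `r ≥ 2` there is `f : ℕ → ℕ` such that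
for every `r`-partite `r`-graph `F` of maximum degree at most `Δ` the supremum defining the
Sidorenko exponent is over a nonempty set bounded above, `s(F) ≤ f(Δ) e(F)`, and moreover
`t_F(H) ≥ t_{K_r^(r)}(H)^(f(Δ) e(F))` for every `r`-graph `H`. -/
theorem result : ∀ r : ℕ, 2 ≤ r → ∃ f : ℕ → ℕ, ∀ (Δ : ℕ) (V : Type) [Fintype V]
    (F : RGraph r V), F.IsPartite → F.MaxDegreeLE Δ →
      (sidorenkoSet F).Nonempty ∧ BddAbove (sidorenkoSet F) ∧
      sidorenkoExponent F ≤ (f Δ : ℝ) * (F.edges.card : ℝ) ∧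
      ∀ (n : ℕ), 0 < n → ∀ H : RGraph r (Fin n),
        homDensity (oneEdge r) H ^ (f Δ * F.edges.card) ≤ homDensity F H := by
  intro r hr
  obtain ⟨f, hf⟩ := main r (by omega)
  refine ⟨f, ?_⟩
  intro Δ V _ F hF hdeg
  have h1 : ∀ (n : ℕ), 0 < n → ∀ H : RGraph r (Fin n),
      homDensity (oneEdge r) H ^ (f Δ * F.edges.card) ≤ homDensity F H := by
    intro n hn H
    haveI : Nonempty (Fin n) := ⟨⟨0, hn⟩⟩
    exact hf Δ V F hF hdeg (Fin n) H
  have h2 := exponent_le hr F (f Δ * F.edges.card) h1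
  have h3 := set_nonempty hr F hF
  have h4 : ∀ s ∈ sidorenkoSet F, s ≤ (f Δ : ℝ) * (F.edges.card : ℝ) := by
    intro s hs
    have := h2 s hs
    push_cast at this
    exact this
  exact ⟨h3, ⟨_, h4⟩, csSup_le h3 h4, h1⟩

end Pool.Agent.Results.MP_30cdc8_co.LinearExponent
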